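import Pool.Agent.Q278.Dougall

set_option autoImplicit false

/-! The supercongruence `S(p) ≡ p (mod p ^ 3)` for every prime `p ≡ 1 (mod 3)`, where `S(p)` is the
truncated sum with the numerator `(1/3)_k ^ 4`. -/

namespace Pool.Agent.Results.MP_a7ff82_nt.Full

open Finset Polynomial Q278.Dougall

/-- The rising factorial `(a)_k = a (a + 1) ⋯ (a + k - 1)` of a rational number. -/
def rf (a : ℚ) (k : ℕ) : ℚ := ∏ i ∈ range k, (a + i)

/-- `S(p) = ∑_{k=0}^{(p-1)/3} (6k+1) (1/3)_k^4 (2k)! / (k!^4 (2/3)_{2k})`. -/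
def S (p : ℕ) : ℚ := ∑ k ∈ range ((p - 1) / 3 + 1),
  (6 * (k : ℚ) + 1) * ((rf (1 / 3) k) ^ 4 * ((2 * k).factorial : ℚ) /
    ((k.factorial : ℚ) ^ 4 * rf (2 / 3) (2 * k)))

theorem rf_eq (a : ℚ) (k : ℕ) : rf a k = (ascPochhammer ℚ k).eval a := by
  induction k with
  | zero => simp [rf]
  | succ k ih => rw [ascPochhammer_succ_eval, ← ih]; simp [rf, prod_range_succ]

theorem result : ∀ p : ℕ, p.Prime → p % 3 = 1 →
    ∃ x : ℚ, ¬ (p ∣ x.den) ∧ S p - p = (p : ℚ) ^ 3 * x := by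
  intro p hp h3
  have hp2 : p ≠ 2 := by rintro rfl; norm_num at h3
  have hN : 3 * (((p - 1) / 3 : ℕ) : ℤ) + 1 = p := by
    have := hp.two_le
    omega
  obtain ⟨x, hx, hx2⟩ := main (Or.inl rfl) hp hp2 hN
  refine ⟨x, hx, ?_⟩
  rw [← hx2]
  congr 1
  unfold S
  apply sum_congr rfl
  intro k _
  have := term_eq (good_int (α := 1) (Or.inl rfl)) k
  push_cast at this ⊢
  rw [this, rf_eq, rf_eq]
  norm_num

end Pool.Agent.Results.MP_a7ff82_nt.Full
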